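import Pool.Agent.helper47.SC.Spec

/-!
# MP_0015b7_an, row sc:POW
-/

set_option autoImplicit false

open scoped Topology ContDiff
open Set Filter Metric MeasureTheory

namespace Pool.Agent.SC

theorem POW_outer (N n i : ℕ) (θ : ℝ) (h0 : 0 < θ) (h1 : θ < 1) (z : ℂ) (hz : ‖z‖ ≤ θ) (hn : n ≤ N)
    (hN : 1 ≤ N) (hi : i ≤ n) :
    ‖iteratedFDeriv ℂ i (fun w : ℂ => w ^ N) z‖ ≤ (N : ℝ) ^ n * θ ^ (N - n) := by
  rw [norm_iteratedFDeriv_eq_norm_iteratedDeriv, iteratedDeriv_pow]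
  have hN1 : (1 : ℝ) ≤ N := by exact_mod_cast hN
  have e1 : ((N.descFactorial i : ℕ) : ℝ) ≤ (N : ℝ) ^ n := by
    have a1 : ((N.descFactorial i : ℕ) : ℝ) ≤ (N : ℝ) ^ i := by
      exact_mod_cast Nat.descFactorial_le_pow N i
    exact le_trans a1 (pow_le_pow_right₀ hN1 hi)
  have e2 : ‖z‖ ^ (N - i) ≤ θ ^ (N - n) := by
    calc ‖z‖ ^ (N - i) ≤ θ ^ (N - i) := pow_le_pow_left₀ (norm_nonneg _) hz _
      _ ≤ θ ^ (N - n) := pow_le_pow_of_le_one h0.le h1.le (by omega)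
  have e3 : ‖((N.descFactorial i : ℕ) : ℂ) * z ^ (N - i)‖ ≤ (N : ℝ) ^ n * θ ^ (N - n) := by
    rw [norm_mul, norm_pow, Complex.norm_natCast]
    exact mul_le_mul e1 e2 (by positivity) (by positivity)
  exact e3

theorem POW_bound (f : C2 → ℂ) (hf : ContDiff ℂ ∞ f) (K : Set C2) (hK : IsCompact K) (n : ℕ) :
    ∃ D : ℝ, 1 ≤ D ∧ ∀ i, i ≤ n → ∀ p ∈ K, ‖iteratedFDeriv ℂ i f p‖ ≤ D := by
  have h1 : ∀ i : ℕ, ∃ D : ℝ, ∀ p ∈ K, ‖iteratedFDeriv ℂ i f p‖ ≤ D := by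
    intro i
    have hc : Continuous fun p => iteratedFDeriv ℂ i f p :=
      hf.continuous_iteratedFDeriv (by exact_mod_cast le_top)
    exact hK.exists_bound_of_continuousOn hc.continuousOn
  choose D hD using h1
  refine ⟨1 + ∑ i ∈ Finset.range (n + 1), |D i|, ?_, ?_⟩
  · have : 0 ≤ ∑ i ∈ Finset.range (n + 1), |D i| := Finset.sum_nonneg fun i _ => abs_nonneg _
    linarith
  · intro i hi p hp
    have a1 : |D i| ≤ ∑ i ∈ Finset.range (n + 1), |D i| :=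
      Finset.single_le_sum (f := fun i => |D i|) (fun i _ => abs_nonneg _)
        (Finset.mem_range.2 (by omega))
    have a2 := hD i p hp
    have a3 := le_abs_self (D i)
    linarith

theorem POW : POW_stmt := by
  intro f hf K hK θ h0 h1 n δ hδ
  obtain ⟨D, hD1, hD⟩ := POW_bound f hf K hK n
  have hlim : Tendsto (fun N : ℕ => ((n.factorial : ℝ) * D ^ n / θ ^ n) * ((N : ℝ) ^ n * θ ^ N))
      atTop (𝓝 0) := by
    have h2 := tendsto_pow_const_mul_const_pow_of_abs_lt_one n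
      (show |θ| < 1 by rw [abs_of_pos h0]; exact h1)
    have h3 := h2.const_mul ((n.factorial : ℝ) * D ^ n / θ ^ n)
    rwa [mul_zero] at h3
  have hev := hlim.eventually (gt_mem_nhds hδ)
  filter_upwards [hev, eventually_ge_atTop (n + 1)] with N hN hNn
  intro j hj p hp hfp
  have hcomp : (fun q => (f q) ^ N) = (fun w : ℂ => w ^ N) ∘ f := rfl
  have hle : ((j : ℕ∞ω)) ≤ (∞ : ℕ∞ω) := by exact_mod_cast le_top
  have hb := norm_iteratedFDeriv_comp_le (𝕜 := ℂ) (g := fun w : ℂ => w ^ N) (f := f) (n := j)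
    (N := ∞) (contDiff_id.pow N) hf hle p (C := (N : ℝ) ^ n * θ ^ (N - n)) (D := D)
    (fun i hi => POW_outer N n i θ h0 h1 (f p) hfp (by omega) (by omega) (by omega))
    (fun i hi1 hi => le_trans (hD i (by omega) p hp)
      (by
        calc D = D ^ 1 := (pow_one D).symm
          _ ≤ D ^ i := pow_le_pow_right₀ hD1 hi1))
  rw [hcomp]
  refine le_trans hb (le_trans ?_ hN.le)
  have hC0 : 0 ≤ (N : ℝ) ^ n * θ ^ (N - n) := by positivity
  have hj1 : (j.factorial : ℝ) ≤ n.factorial := by exact_mod_cast Nat.factorial_le hj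
  have hj2 : D ^ j ≤ D ^ n := pow_le_pow_right₀ hD1 hj
  have hθ : θ ^ N = θ ^ n * θ ^ (N - n) := by
    rw [← pow_add]
    congr 1
    omega
  calc (j.factorial : ℝ) * ((N : ℝ) ^ n * θ ^ (N - n)) * D ^ j
      ≤ (n.factorial : ℝ) * ((N : ℝ) ^ n * θ ^ (N - n)) * D ^ n := by
        gcongr
    _ = ((n.factorial : ℝ) * D ^ n / θ ^ n) * ((N : ℝ) ^ n * θ ^ N) := by
        rw [hθ]
        have : θ ^ n ≠ 0 := by positivity
        field_simp

end Pool.Agent.SC
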