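import Pool.Agent.helper83.SC.Stmt

/-!
Module BS of the SC project: the polarized functional `B`.
-/

open scoped Pointwise ContDiff
open MeasureTheory Set Filter Topology

namespace Pool.Agent.helper83.SC

theorem BS_CV_sum {m : ℕ} {ι : Type} (s : Finset ι) {F : ι → E m → ℝ} (hF : ∀ i ∈ s, CV (F i)) :
    CV (fun x => ∑ i ∈ s, F i x) := by
  classical
  induction s using Finset.induction_on with
  | empty =>
    simp only [Finset.sum_empty]
    exact convexOn_const 0 convex_univ
  | insert a s ha ih =>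
    simp only [Finset.sum_insert ha]
    exact (hF a (Finset.mem_insert_self a s)).add
      (ih fun i hi => hF i (Finset.mem_insert_of_mem hi))

theorem BS_int {m : ℕ} {φ : E m → ℝ} (hφ : Test φ) {f : E m → ℝ} (hf : Continuous f) :
    Integrable (fun x => φ x * f x) :=
  (hφ.1.continuous.mul hf).integrable_of_hasCompactSupport hφ.2.1.mul_right

/-- the smooth case of the shift formula -/
theorem BS_smooth (h1 : mD_polar_stmt) (h2 : hess_add_stmt) (h3 : hess_sum_stmt)
    (h4 : continuous_hess_stmt) (h5 : A_smooth_stmt) {m : ℕ} {φ : E m → ℝ}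
    {F : Fin m → E m → ℝ} {G : E m → ℝ} (hφ : Test φ) (hF : ∀ j, ContDiff ℝ ∞ (F j))
    (hc : ∀ j, CV (F j)) (hG : ContDiff ℝ ∞ G) (hGc : CV G) :
    ∑ J : Finset (Fin m), (-1 : ℝ) ^ (m - J.card) * A φ (fun x => G x + ∑ j ∈ J, F j x)
      = (m.factorial : ℝ) * ∫ x, φ x * mD (fun j => hess (F j) x) := by
  have hs : ∀ J : Finset (Fin m), ContDiff ℝ ∞ (fun x => ∑ j ∈ J, F j x) := fun J =>
    ContDiff.sum fun j _ => hF j
  have hcs : ∀ J : Finset (Fin m), CV (fun x => ∑ j ∈ J, F j x) := fun J =>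
    BS_CV_sum J fun j _ => hc j
  have hh : ∀ J : Finset (Fin m), ∀ x,
      hess (fun x => G x + ∑ j ∈ J, F j x) x = hess G x + ∑ j ∈ J, hess (F j) x := by
    intro J x
    rw [h2 hG (hs J) x, h3 J hF x]
  have hA : ∀ J : Finset (Fin m), (-1 : ℝ) ^ (m - J.card) * A φ (fun x => G x + ∑ j ∈ J, F j x)
      = ∫ x, φ x * ((-1 : ℝ) ^ (m - J.card) * (hess G x + ∑ j ∈ J, hess (F j) x).det) := by
    intro J
    rw [h5 hφ (hG.add (hs J)) (hGc.add (hcs J)), ← integral_const_mul]
    refine integral_congr_ae (Eventually.of_forall fun x => ?_)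
    simp only
    rw [hh J x]
    ring
  rw [Finset.sum_congr rfl fun J _ => hA J, ← integral_finsetSum, ← integral_const_mul]
  · refine integral_congr_ae (Eventually.of_forall fun x => ?_)
    simp only
    rw [← Finset.mul_sum, h1 (hess G x) (fun j => hess (F j) x)]
    ring
  · intro J _
    refine BS_int hφ (continuous_const.mul (Continuous.matrix_det ?_))
    exact (h4 hG).add (continuous_finsetSum _ fun j _ => h4 (hF j))

theorem B_smooth_of (h1 : mD_polar_stmt) (h2 : hess_add_stmt) (h3 : hess_sum_stmt)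
    (h4 : continuous_hess_stmt) (h5 : A_smooth_stmt) : B_smooth_stmt := by
  intro m φ F hφ hF hc
  have h := BS_smooth h1 h2 h3 h4 h5 hφ hF hc (contDiff_const (c := (0 : ℝ)))
    (convexOn_const 0 convex_univ)
  simp only [zero_add] at h
  unfold B
  rw [h, ← mul_assoc, one_div, inv_mul_cancel₀ (by exact_mod_cast m.factorial_ne_zero), one_mul]

theorem tendsto_B_of (h1 : tendsto_A_stmt) : tendsto_B_stmt := by
  intro m φ F G hφ hF hG h
  unfold B
  refine Tendsto.const_mul _ (tendsto_finsetSum _ fun J _ => Tendsto.const_mul _ ?_)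
  exact h1 hφ (BS_CV_sum J fun j _ => hF j) (fun k => BS_CV_sum J fun j _ => hG k j)
    (fun x => tendsto_finsetSum _ fun j _ => h j x)

theorem B_shift_of (h1 : mD_polar_stmt) (h2 : hess_add_stmt) (h3 : hess_sum_stmt)
    (h4 : continuous_hess_stmt) (h5 : A_smooth_stmt) (h6 : tendsto_A_stmt)
    (h7 : exists_smooth_stmt) : B_shift_stmt := by
  intro m φ F G hφ hF hG
  choose P hP hPl using fun j => h7 (hF j)
  obtain ⟨Q, hQ, hQl⟩ := h7 hG
  have key : ∀ k, ∑ J : Finset (Fin m), (-1 : ℝ) ^ (m - J.card)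
      * A φ (fun x => Q k x + ∑ j ∈ J, P j k x)
      = (m.factorial : ℝ) * B φ (fun j => P j k) := by
    intro k
    rw [BS_smooth h1 h2 h3 h4 h5 hφ (fun j => (hP j k).1) (fun j => (hP j k).2) (hQ k).1
      (hQ k).2, B_smooth_of h1 h2 h3 h4 h5 hφ (fun j => (hP j k).1) (fun j => (hP j k).2)]
  have t1 : Tendsto (fun k => (m.factorial : ℝ) * B φ (fun j => P j k)) atTop
      (𝓝 ((m.factorial : ℝ) * B φ F)) :=
    Tendsto.const_mul _ (tendsto_B_of h6 hφ hF (fun k j => (hP j k).2) fun j x => hPl j x)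
  have t2 : Tendsto (fun k => ∑ J : Finset (Fin m), (-1 : ℝ) ^ (m - J.card)
      * A φ (fun x => Q k x + ∑ j ∈ J, P j k x)) atTop
      (𝓝 (∑ J : Finset (Fin m), (-1 : ℝ) ^ (m - J.card)
      * A φ (fun x => G x + ∑ j ∈ J, F j x))) := by
    refine tendsto_finsetSum _ fun J _ => Tendsto.const_mul _ ?_
    exact h6 hφ (hG.add (BS_CV_sum J fun j _ => hF j))
      (fun k => (hQ k).2.add (BS_CV_sum J fun j _ => (hP j k).2))
      (fun x => (hQl x).add (tendsto_finsetSum _ fun j _ => hPl j x))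
  simp only [key] at t2
  exact tendsto_nhds_unique t2 t1

end Pool.Agent.helper83.SC
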