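import Pool.Agent.helper46.SC.BS

/-!
Module BP2 of the SC project: multilinearity of the functional `B`.
-/

open scoped Pointwise ContDiff
open MeasureTheory Set Filter Topology

namespace Pool.Agent.helper83.SC

theorem BP2_cont_mD {m : ℕ} {X : Type} [TopologicalSpace X]
    {M : X → Fin m → Matrix (Fin m) (Fin m) ℝ} (hM : ∀ j, Continuous fun x => M x j) :
    Continuous fun x => mD (M x) := by
  unfold mD
  refine continuous_const.mul (continuous_finsetSum _ fun σ _ => ?_)
  refine Continuous.matrix_det ?_
  refine continuous_matrix fun i j => ?_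
  simp only [Matrix.of_apply]
  exact (hM (σ i)).matrix_elem i j

theorem BP2_CV_smul {m : ℕ} {f : E m → ℝ} (hf : CV f) {c : ℝ} (hc : 0 ≤ c) :
    CV (fun x => c * f x) := by
  have := ConvexOn.smul hc hf
  exact this

theorem BP2_update {m : ℕ} {α : Type} (F : Fin m → α) (i : Fin m) (a : α) (p : α → Prop)
    (hF : ∀ j, p (F j)) (ha : p a) (j : Fin m) : p (Function.update F i a j) := by
  by_cases hj : j = i
  · subst hj; rw [Function.update_self]; exact ha
  · rw [Function.update_of_ne hj]; exact hF j

theorem BP2_hess_update {m : ℕ} (F : Fin m → E m → ℝ) (i : Fin m) (f : E m → ℝ) (x : E m) :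
    (fun j => hess (Function.update F i f j) x)
      = Function.update (fun j => hess (F j) x) i (hess f x) := by
  funext j
  by_cases hj : j = i
  · subst hj; rw [Function.update_self, Function.update_self]
  · rw [Function.update_of_ne hj, Function.update_of_ne hj]

theorem BP2_tendsto (h6 : tendsto_B_stmt) {m : ℕ} {φ : E m → ℝ} {F : Fin m → E m → ℝ}
    {G : ℕ → Fin m → E m → ℝ} {f : E m → ℝ} {g : ℕ → E m → ℝ} (i : Fin m) (hφ : Test φ)
    (hF : ∀ j, CV (F j)) (hG : ∀ k j, CV (G k j)) (hf : CV f) (hg : ∀ k, CV (g k))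
    (h : ∀ j x, Tendsto (fun k => G k j x) atTop (𝓝 (F j x)))
    (h' : ∀ x, Tendsto (fun k => g k x) atTop (𝓝 (f x))) :
    Tendsto (fun k => B φ (Function.update (G k) i (g k))) atTop
      (𝓝 (B φ (Function.update F i f))) := by
  refine h6 hφ (BP2_update F i f CV hF hf) (fun k => BP2_update (G k) i (g k) CV (hG k) (hg k))
    fun j x => ?_
  by_cases hj : j = i
  · subst hj; simp only [Function.update_self]; exact h' x
  · simp only [Function.update_of_ne hj]; exact h j x

theorem B_update_add_of (h1 : mD_update_add_stmt) (h2 : hess_add_stmt)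
    (h4 : continuous_hess_stmt) (h5 : B_smooth_stmt) (h6 : tendsto_B_stmt)
    (h7 : exists_smooth_stmt) : B_update_add_stmt := by
  intro m φ F i f f' hφ hF hf hf'
  choose P hP hPl using fun j => h7 (hF j)
  obtain ⟨Q, hQ, hQl⟩ := h7 hf
  obtain ⟨R, hR, hRl⟩ := h7 hf'
  have key : ∀ k, B φ (Function.update (fun j => P j k) i (fun x => Q k x + R k x))
      = B φ (Function.update (fun j => P j k) i (Q k))
        + B φ (Function.update (fun j => P j k) i (R k)) := by
    intro k
    have hs : ∀ {g : E m → ℝ}, ContDiff ℝ ∞ g →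
        ∀ j, ContDiff ℝ ∞ (Function.update (fun j => P j k) i g j) := fun hg =>
      BP2_update _ i _ (fun g => ContDiff ℝ ∞ g) (fun j => (hP j k).1) hg
    have hc : ∀ {g : E m → ℝ}, CV g →
        ∀ j, CV (Function.update (fun j => P j k) i g j) := fun hg =>
      BP2_update _ i _ CV (fun j => (hP j k).2) hg
    have hint : ∀ {g : E m → ℝ}, ContDiff ℝ ∞ g → Integrable (fun x => φ x *
        mD (fun j => hess (Function.update (fun j => P j k) i g j) x)) := fun hg =>
      BS_int hφ (BP2_cont_mD fun j => h4 (hs hg j))
    rw [h5 hφ (hs ((hQ k).1.add (hR k).1)) (hc ((hQ k).2.add (hR k).2)),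
      h5 hφ (hs (hQ k).1) (hc (hQ k).2), h5 hφ (hs (hR k).1) (hc (hR k).2),
      ← integral_add (hint (hQ k).1) (hint (hR k).1)]
    refine integral_congr_ae (Eventually.of_forall fun x => ?_)
    simp only
    rw [BP2_hess_update, BP2_hess_update, BP2_hess_update, h2 (hQ k).1 (hR k).1, h1]
    ring
  have t1 := BP2_tendsto h6 i hφ hF (fun k j => (hP j k).2) (hf.add hf')
    (fun k => (hQ k).2.add (hR k).2) (fun j x => hPl j x) (fun x => (hQl x).add (hRl x))
  have t2 := (BP2_tendsto h6 i hφ hF (fun k j => (hP j k).2) hf (fun k => (hQ k).2)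
    (fun j x => hPl j x) hQl).add (BP2_tendsto h6 i hφ hF (fun k j => (hP j k).2) hf'
    (fun k => (hR k).2) (fun j x => hPl j x) hRl)
  refine tendsto_nhds_unique (t1.congr fun k => ?_) t2
  exact key k

theorem B_update_smul_of (h1 : mD_update_smul_stmt) (h2 : hess_smul_stmt)
    (h5 : B_smooth_stmt) (h6 : tendsto_B_stmt)
    (h7 : exists_smooth_stmt) : B_update_smul_stmt := by
  intro m φ F i f hφ hF hf c hc0
  choose P hP hPl using fun j => h7 (hF j)
  obtain ⟨Q, hQ, hQl⟩ := h7 hf
  have key : ∀ k, B φ (Function.update (fun j => P j k) i (fun x => c * Q k x))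
      = c * B φ (Function.update (fun j => P j k) i (Q k)) := by
    intro k
    have hs : ∀ {g : E m → ℝ}, ContDiff ℝ ∞ g →
        ∀ j, ContDiff ℝ ∞ (Function.update (fun j => P j k) i g j) := fun hg =>
      BP2_update _ i _ (fun g => ContDiff ℝ ∞ g) (fun j => (hP j k).1) hg
    have hc : ∀ {g : E m → ℝ}, CV g →
        ∀ j, CV (Function.update (fun j => P j k) i g j) := fun hg =>
      BP2_update _ i _ CV (fun j => (hP j k).2) hg
    rw [h5 hφ (hs (contDiff_const.mul (hQ k).1)) (hc (BP2_CV_smul (hQ k).2 hc0)),
      h5 hφ (hs (hQ k).1) (hc (hQ k).2), ← integral_const_mul]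
    refine integral_congr_ae (Eventually.of_forall fun x => ?_)
    simp only
    rw [BP2_hess_update, BP2_hess_update, h2 (hQ k).1 c, h1]
    ring
  have t1 := BP2_tendsto h6 i hφ hF (fun k j => (hP j k).2) (BP2_CV_smul hf hc0)
    (fun k => BP2_CV_smul (hQ k).2 hc0) (fun j x => hPl j x) (fun x => (hQl x).const_mul c)
  have t2 := (BP2_tendsto h6 i hφ hF (fun k j => (hP j k).2) hf (fun k => (hQ k).2)
    (fun j x => hPl j x) hQl).const_mul c
  refine tendsto_nhds_unique (t1.congr fun k => ?_) t2
  exact key k

theorem B_mul_of (h : B_update_smul_stmt) : B_mul_stmt := by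
  intro m φ F hφ hF c hc
  have key : ∀ s : Finset (Fin m),
      B φ (fun j x => if j ∈ s then c j * F j x else F j x) = (∏ j ∈ s, c j) * B φ F := by
    intro s
    induction s using Finset.induction_on with
    | empty => simp
    | insert a s ha ih =>
      have e1 : (fun (j : Fin m) (x : E m) => if j ∈ insert a s then c j * F j x else F j x)
          = Function.update (fun (j : Fin m) (x : E m) => if j ∈ s then c j * F j x else F j x) a
            (fun x => c a * F a x) := by
        funext j
        by_cases hj : j = a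
        · subst hj; rw [Function.update_self]; simp
        · rw [Function.update_of_ne hj]
          funext x
          simp [Finset.mem_insert, hj]
      have e2 : Function.update (fun (j : Fin m) (x : E m) =>
          if j ∈ s then c j * F j x else F j x) a (F a)
          = (fun (j : Fin m) (x : E m) => if j ∈ s then c j * F j x else F j x) := by
        funext j
        by_cases hj : j = a
        · subst hj; rw [Function.update_self]; simp [ha]
        · rw [Function.update_of_ne hj]
      have hCV : ∀ j, CV (fun x : E m => if j ∈ s then c j * F j x else F j x) := by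
        intro j
        by_cases hj : j ∈ s
        · simp only [hj, if_true]; exact BP2_CV_smul (hF j) (hc j)
        · simp only [hj, if_false]; exact hF j
      rw [e1, h hφ hCV (hF a) (hc a), e2, ih, Finset.prod_insert ha]
      ring
  have := key Finset.univ
  simpa using this

theorem B_affine_of (h : A_affine_stmt) : B_affine_stmt := by
  intro m φ F a c
  unfold B
  congr 1
  refine Finset.sum_congr rfl fun J _ => ?_
  congr 1
  have e1 : (fun x => ∑ j ∈ J, (F j x + (inner ℝ (a j) x + c j)))
      = fun x => (∑ j ∈ J, F j x) + (inner ℝ (∑ j ∈ J, a j) x + ∑ j ∈ J, c j) := by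
    funext x
    rw [Finset.sum_add_distrib, Finset.sum_add_distrib, sum_inner]
  rw [e1]
  exact h φ (fun x => ∑ j ∈ J, F j x) (∑ j ∈ J, a j) (∑ j ∈ J, c j)

end Pool.Agent.helper83.SC
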