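import Pool.Agent.helper46.SC.BP2

/-!
Module BP4 of the SC project: the functional `B` for one function and multiples of the
squared norm.
-/

open scoped Pointwise ContDiff
open MeasureTheory Set Filter Topology

namespace Pool.Agent.helper83.SC

theorem BP4_pd_smooth {m : ℕ} {f : E m → ℝ} (hf : ContDiff ℝ ∞ f) (i : Fin m) :
    ContDiff ℝ ∞ (pd i f) := by
  unfold pd
  exact (hf.fderiv_right (m := ∞) (by simp)).clm_apply contDiff_const

theorem BP4_pd_supp {m : ℕ} {f : E m → ℝ} (hf : HasCompactSupport f) (i : Fin m) :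
    HasCompactSupport (pd i f) := by
  unfold pd
  exact hf.fderiv_apply (𝕜 := ℝ) (e i)

/-- integration by parts for one partial derivative -/
theorem BP4_parts {m : ℕ} {f g : E m → ℝ} (hf : ContDiff ℝ ∞ f) (hg : ContDiff ℝ ∞ g)
    (hc : HasCompactSupport f) (i : Fin m) :
    ∫ x, f x * pd i g x = - ∫ x, pd i f x * g x := by
  have hi : ∀ {a b : E m → ℝ}, ContDiff ℝ ∞ a → ContDiff ℝ ∞ b → HasCompactSupport a →
      Integrable (fun x => a x * b x) := fun ha hb hca =>
    (ha.continuous.mul hb.continuous).integrable_of_hasCompactSupport hca.mul_right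
  refine integral_mul_fderiv_eq_neg_fderiv_mul_of_integrable (v := e i)
    (hi (BP4_pd_smooth hf i) hg (BP4_pd_supp hc i)) (hi hf (BP4_pd_smooth hg i) hc)
    (hi hf hg hc) (fun x _ => ?_) (fun x _ => ?_)
  · exact (hf.differentiable (by simp)) x
  · exact (hg.differentiable (by simp)) x

theorem BP4_lap {m : ℕ} {φ f : E m → ℝ} (hφ : Test φ) (hf : ContDiff ℝ ∞ f) :
    ∫ x, φ x * lap f x = ∫ x, f x * lap φ x := by
  have hi : ∀ {a b : E m → ℝ}, ContDiff ℝ ∞ a → ContDiff ℝ ∞ b → HasCompactSupport a →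
      Integrable (fun x => a x * b x) := fun ha hb hca =>
    (ha.continuous.mul hb.continuous).integrable_of_hasCompactSupport hca.mul_right
  have key : ∀ i : Fin m, ∫ x, φ x * pd i (pd i f) x = ∫ x, f x * pd i (pd i φ) x := by
    intro i
    rw [BP4_parts hφ.1 (BP4_pd_smooth hf i) hφ.2.1 i]
    have h2 := BP4_parts (BP4_pd_smooth hφ.1 i) hf (BP4_pd_supp hφ.2.1 i) i
    rw [h2, neg_neg]
    exact integral_congr_ae (Eventually.of_forall fun x => mul_comm _ _)
  unfold lap
  simp only [Finset.mul_sum]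
  rw [integral_finsetSum _ fun i _ => hi hφ.1 (BP4_pd_smooth (BP4_pd_smooth hf i) i) hφ.2.1,
    integral_finsetSum _ fun i _ => ?_]
  · exact Finset.sum_congr rfl fun i _ => key i
  · have := hi (BP4_pd_smooth (BP4_pd_smooth hφ.1 i) i) hf
      (BP4_pd_supp (BP4_pd_supp hφ.2.1 i) i)
    exact this.congr (Eventually.of_forall fun x => mul_comm _ _)

theorem BP4_lap_cont {m : ℕ} {φ : E m → ℝ} (hφ : Test φ) :
    Continuous (lap φ) ∧ HasCompactSupport (lap φ) := by
  constructor
  · unfold lap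
    exact continuous_finsetSum _ fun i _ =>
      (BP4_pd_smooth (BP4_pd_smooth hφ.1 i) i).continuous
  · refine HasCompactSupport.of_support_subset_isCompact (K := tsupport φ) hφ.2.1 ?_
    intro x hx
    by_contra hxn
    apply hx
    unfold lap
    refine Finset.sum_eq_zero fun i _ => ?_
    have h1 : φ =ᶠ[𝓝 x] fun _ => 0 := notMem_tsupport_iff_eventuallyEq.mp hxn
    have h2 : pd i φ =ᶠ[𝓝 x] fun _ => 0 := by
      have := h1.fderiv (𝕜 := ℝ)
      filter_upwards [this] with y hy
      unfold pd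
      rw [hy]
      simp
    have h3 := h2.fderiv_eq (𝕜 := ℝ)
    show fderiv ℝ (pd i φ) x (e i) = 0
    rw [h3]
    simp

theorem BP4_CV_normSq {m : ℕ} {c : ℝ} (hc : 0 ≤ c) : CV (fun x : E m => c * ‖x‖ ^ 2 / 2) := by
  have h1 : CV (fun x : E m => ‖x‖ ^ 2) :=
    (convexOn_norm convex_univ).pow (fun x _ => norm_nonneg x) 2
  have h2 := BP2_CV_smul h1 (c := c / 2) (by linarith)
  have e1 : (fun x : E m => c * ‖x‖ ^ 2 / 2) = fun x => c / 2 * ‖x‖ ^ 2 := by
    funext x; ring
  rw [e1]; exact h2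

theorem BP4_smooth_normSq {m : ℕ} (c : ℝ) : ContDiff ℝ ∞ (fun x : E m => c * ‖x‖ ^ 2 / 2) :=
  (contDiff_const.mul (contDiff_norm_sq ℝ)).div_const 2

theorem B_lap_of (h1 : mD_trace_stmt) (h2 : hess_normSq_stmt) (h3 : trace_hess_stmt)
    (h4 : B_smooth_stmt) (h5 : tendsto_B_stmt) (h6 : exists_smooth_stmt) (h7 : loc_bdd_stmt) :
    B_lap_stmt := by
  intro m φ f hφ hf i₀ c hc
  obtain ⟨G, hG, hlim⟩ := h6 hf
  have hqs := BP4_smooth_normSq (m := m) c
  have hqc := BP4_CV_normSq (m := m) hc
  set q : E m → ℝ := fun x => c * ‖x‖ ^ 2 / 2 with hq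
  obtain ⟨hlc, hls⟩ := BP4_lap_cont hφ
  have key : ∀ k, B φ (pair i₀ (G k) q) = c ^ (m - 1) / m * ∫ x, G k x * lap φ x := by
    intro k
    obtain ⟨hGs, hGc⟩ := hG k
    have hps : ∀ j, ContDiff ℝ ∞ (pair i₀ (G k) q j) := by
      intro j; unfold pair; split_ifs
      · exact hGs
      · exact hqs
    have hpc : ∀ j, CV (pair i₀ (G k) q j) := by
      intro j; unfold pair; split_ifs
      · exact hGc
      · exact hqc
    rw [h4 hφ hps hpc, ← BP4_lap hφ hGs, ← integral_const_mul]
    refine integral_congr_ae (Eventually.of_forall fun x => ?_)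
    simp only
    have hhess : (fun j => hess (pair i₀ (G k) q j) x)
        = fun j => if j = i₀ then hess (G k) x else c • (1 : Matrix (Fin m) (Fin m) ℝ) := by
      funext j
      unfold pair
      split_ifs with hj
      · rfl
      · exact h2 c x
    rw [hhess, h1 i₀ (hess (G k) x) c, h3]
    ring
  have t1 : Tendsto (fun k => B φ (pair i₀ (G k) q)) atTop (𝓝 (B φ (pair i₀ f q))) := by
    refine h5 hφ (fun j => ?_) (fun k j => ?_) (fun j x => ?_)
    · unfold pair; split_ifs
      · exact hf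
      · exact hqc
    · unfold pair; split_ifs
      · exact (hG k).2
      · exact hqc
    · unfold pair; split_ifs
      · exact hlim x
      · exact tendsto_const_nhds
  -- dominated convergence
  obtain ⟨R, hR⟩ : ∃ R : ℝ, ∀ x, x ∈ tsupport (lap φ) → ‖x‖ ≤ R := by
    obtain ⟨R, hR⟩ := hls.isBounded.subset_closedBall 0
    exact ⟨R, fun x hx => by simpa using hR hx⟩
  obtain ⟨C, hC⟩ := h7 (fun k => (hG k).2) hlim R
  have t2 : Tendsto (fun k => ∫ x, G k x * lap φ x) atTop (𝓝 (∫ x, f x * lap φ x)) := by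
    refine tendsto_integral_of_dominated_convergence (fun x => C * |lap φ x|) (fun k => ?_) ?_
      (fun k => ?_) ?_
    · exact ((hG k).1.continuous.mul hlc).aestronglyMeasurable
    · exact (hlc.abs.integrable_of_hasCompactSupport hls.abs).const_mul C
    · refine Eventually.of_forall fun x => ?_
      by_cases hx : x ∈ tsupport (lap φ)
      · rw [Real.norm_eq_abs, abs_mul]
        exact mul_le_mul_of_nonneg_right (hC k x (hR x hx)) (abs_nonneg _)
      · rw [image_eq_zero_of_notMem_tsupport hx]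
        simp
    · exact Eventually.of_forall fun x => (hlim x).mul_const _
  refine tendsto_nhds_unique t1 ((t2.const_mul (c ^ (m - 1) / (m : ℝ))).congr fun k => ?_)
  exact (key k).symm

end Pool.Agent.helper83.SC
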