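import Pool.Agent.helper83.SC.Stmt

/-!
Module BP5 of the SC project: the rank one formula for the mixed Monge-Ampere functional.
-/

open scoped Pointwise ContDiff
open MeasureTheory Set Filter Topology

namespace Pool.Agent.helper83.SC

theorem BP5_CV_sq {m : ℕ} (l : E m) : CV (fun x : E m => (inner ℝ l x) ^ 2 / 2) := by
  refine ⟨convex_univ, fun x _ y _ a b ha hb hab => ?_⟩
  simp only [inner_add_right, inner_smul_right, smul_eq_mul]
  have hb' : b = 1 - a := by linarith
  subst hb'
  nlinarith [mul_nonneg (mul_nonneg ha hb) (sq_nonneg (inner ℝ l x - inner ℝ l y))]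

theorem BP5_smooth_sq {m : ℕ} (l : E m) : ContDiff ℝ ∞ (fun x : E m => (inner ℝ l x) ^ 2 / 2) :=
  ((contDiff_const.inner ℝ contDiff_id).pow 2).div_const 2

theorem B_rank_one_of (h1 : mD_rank_one_stmt) (h2 : hess_add_stmt) (h3 : hess_rank_one_stmt)
    (h4 : continuous_hess_stmt) (h5 : exists_smooth_stmt) (h6 : tendsto_A_stmt)
    (h7 : A_smooth_stmt) (h8 : B_smooth_stmt) (h9 : tendsto_B_stmt) : B_rank_one_stmt := by
  intro m φ g hφ hg i₀ l
  obtain ⟨G, hG, hlim⟩ := h5 hg
  have hqs := BP5_smooth_sq l
  have hqc := BP5_CV_sq l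
  set q : E m → ℝ := fun x => (inner ℝ l x) ^ 2 / 2 with hq
  have hint : ∀ f : E m → ℝ, Continuous f → Integrable (fun x => φ x * f x) := by
    intro f hf
    exact (hφ.1.continuous.mul hf).integrable_of_hasCompactSupport hφ.2.1.mul_right
  have key : ∀ k, A φ (fun x => G k x + q x) = A φ (G k) + m * B φ (pair i₀ q (G k)) := by
    intro k
    obtain ⟨hGs, hGc⟩ := hG k
    have hps : ∀ j, ContDiff ℝ ∞ (pair i₀ q (G k) j) := by
      intro j; unfold pair; split_ifs
      · exact hqs
      · exact hGs
    have hpc : ∀ j, CV (pair i₀ q (G k) j) := by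
      intro j; unfold pair; split_ifs
      · exact hqc
      · exact hGc
    have hhess : ∀ x, (fun j => hess (pair i₀ q (G k) j) x)
        = fun j => if j = i₀ then Matrix.vecMulVec (fun i => l i) (fun i => l i)
          else hess (G k) x := by
      intro x
      funext j
      unfold pair
      split_ifs with hj
      · exact h3 l x
      · rfl
    rw [h7 hφ (hGs.add hqs) (hGc.add hqc), h7 hφ hGs hGc, h8 hφ hps hpc]
    have hcd : Continuous fun x => (hess (G k) x).det := (h4 hGs).matrix_det
    have hcm : Continuous fun x => (m : ℝ) * mD (fun j => hess (pair i₀ q (G k) j) x) := by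
      unfold mD
      refine continuous_const.mul (continuous_const.mul (continuous_finsetSum _ fun σ _ => ?_))
      refine Continuous.matrix_det ?_
      refine continuous_matrix fun i j => ?_
      simp only [Matrix.of_apply]
      exact (h4 (hps (σ i))).matrix_elem i j
    rw [← integral_const_mul, ← integral_add (hint _ hcd) ?_]
    · refine integral_congr_ae (Eventually.of_forall fun x => ?_)
      have e1 : hess (fun y => G k y + q y) x
          = hess (G k) x + Matrix.vecMulVec (fun i => l i) (fun i => l i) := by
        rw [h2 hGs hqs x, h3 l x]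
      simp only
      rw [e1, h1 i₀ (hess (G k) x) (fun i => l i), hhess x]
      ring
    · have := hint _ hcm
      refine this.congr (Eventually.of_forall fun x => ?_)
      simp only
      ring
  have t1 : Tendsto (fun k => A φ (fun x => G k x + q x)) atTop (𝓝 (A φ (fun x => g x + q x))) :=
    h6 hφ (hg.add hqc) (fun k => (hG k).2.add hqc) (fun x => (hlim x).add_const (q x))
  have t2 : Tendsto (fun k => A φ (G k)) atTop (𝓝 (A φ g)) := h6 hφ hg (fun k => (hG k).2) hlim
  have t3 : Tendsto (fun k => B φ (pair i₀ q (G k))) atTop (𝓝 (B φ (pair i₀ q g))) := by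
    refine h9 hφ (fun j => ?_) (fun k j => ?_) (fun j x => ?_)
    · unfold pair; split_ifs
      · exact hqc
      · exact hg
    · unfold pair; split_ifs
      · exact hqc
      · exact (hG k).2
    · unfold pair; split_ifs
      · exact tendsto_const_nhds
      · exact hlim x
  have t4 : Tendsto (fun k => A φ (G k) + m * B φ (pair i₀ q (G k))) atTop
      (𝓝 (A φ g + m * B φ (pair i₀ q g))) := t2.add (t3.const_mul _)
  simp only [key] at t1
  exact tendsto_nhds_unique t1 t4

end Pool.Agent.helper83.SC
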